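import Pool.Agent.P.MP_8e531e_co.Q.Up

/-! Fractional colouring against the clique averages of all spanning subgraphs. -/

set_option autoImplicit false
set_option linter.unusedSectionVars false

namespace Pool.Agent.P.MP_8e531e_co.H

open Finset Pool.Agent.P.MP_8e531e_co.Q

variable {V : Type} [Fintype V] [DecidableEq V]

/-- Local occupancy with a coefficient that depends on the vertex. -/
def Occ (G : SimpleGraph V) [DecidableRel G.Adj] (α : V → ℝ) (β : ℝ) (A : Finset V) : Prop :=
  ∀ H ⊆ A, ∃ μ : Finset V → ℝ, (∀ s, 0 ≤ μ s) ∧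
    (∀ s : Finset V, ¬ G.IsIndepSet (s : Set V) → μ s = 0) ∧ (∀ s, ¬ s ⊆ H → μ s = 0) ∧
    ∑ s, μ s = 1 ∧ ∀ v ∈ H, 1 ≤ α v * cov μ v + β * ∑ u ∈ G.neighborFinset v, cov μ u

/-- Greedy fractional colouring with a demand vector. -/
theorem greedyV (G : SimpleGraph V) [DecidableRel G.Adj] {α : V → ℝ} {β : ℝ} (hα : ∀ v, 0 ≤ α v)
    (hβ : 0 ≤ β) {A : Finset V} (hloc : Occ G α β A) (n : ℕ) :
    ∀ (r : V → ℝ) (k : ℝ), (univ.filter (fun v => 0 < r v)).card ≤ n → (∀ v, 0 ≤ r v) →
      (∀ v, 0 < r v → v ∈ A) → 0 ≤ k →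
      (∀ v, 0 < r v → α v * r v + β * ∑ u ∈ G.neighborFinset v, r u ≤ k) →
      ∃ x : Finset V → ℝ, (∀ s, 0 ≤ x s) ∧
        (∀ s : Finset V, ¬ G.IsIndepSet (s : Set V) → x s = 0) ∧
        (∀ v, r v ≤ cov x v) ∧ ∑ s, x s ≤ k := by
  induction n with
  | zero =>
    intro r k hc h0 _ hk _
    refine ⟨fun _ => 0, fun _ => le_rfl, fun _ _ => rfl, fun v => ?_, by simpa using hk⟩
    have : ¬ 0 < r v := fun h => by
      have : v ∈ univ.filter (fun v => 0 < r v) := by simpa using h
      rw [card_eq_zero.1 (Nat.le_zero.1 hc)] at this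
      simp at this
    simpa [cov] using not_lt.1 this
  | succ n ih =>
    intro r k hc h0 hA hk hb
    set H := univ.filter (fun v => 0 < r v) with hH
    by_cases hle : H.card ≤ n
    · exact ih r k hle h0 hA hk hb
    have hmem : ∀ v, v ∈ H ↔ 0 < r v := fun v => by simp [hH]
    obtain ⟨v0, hv0⟩ : H.Nonempty := card_pos.1 (by omega)
    obtain ⟨μ, m0, m1, m2, m3, m4⟩ := hloc H (fun v hv => hA v ((hmem v).1 hv))
    have p0 : ∀ u, 0 ≤ cov μ u := cov_nonneg m0
    have pH : ∀ u, u ∉ H → cov μ u = 0 := fun u hu =>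
      sum_eq_zero fun s hs => m2 s fun hsub => hu (hsub (by simpa using hs))
    have hT : (univ.filter (fun u => 0 < cov μ u)).Nonempty := by
      by_contra hne
      have hz : ∀ u, cov μ u = 0 := fun u => by
        by_contra h
        exact hne ⟨u, by simpa using lt_of_le_of_ne (p0 u) (Ne.symm h)⟩
      have := m4 v0 hv0
      simp [hz] at this
      linarith
    obtain ⟨u0, hu0, hmin⟩ := exists_min_image _ (fun u => r u / cov μ u) hT
    have pu0 : 0 < cov μ u0 := by simpa using hu0
    have hu0H : u0 ∈ H := by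
      by_contra h
      exact pu0.ne' (pH u0 h)
    set τ := r u0 / cov μ u0 with hτ
    have τ0 : 0 ≤ τ := div_nonneg (h0 _) pu0.le
    have r0 : ∀ u, 0 ≤ r u - τ * cov μ u := fun u => by
      rcases (p0 u).eq_or_lt with h | h
      · rw [← h]; simpa using h0 u
      · have := hmin u (by simpa using h)
        rw [le_div_iff₀ h] at this
        linarith
    have rle : ∀ u, 0 < r u - τ * cov μ u → 0 < r u := fun u h => by
      have := mul_nonneg τ0 (p0 u)
      linarith
    have key : ∀ v, 0 < r v → α v * (r v - τ * cov μ v) +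
        β * ∑ u ∈ G.neighborFinset v, (r u - τ * cov μ u) ≤ k - τ := fun v hv => by
      have h1 := hb v hv
      have h2 := mul_le_mul_of_nonneg_left (m4 v ((hmem v).2 hv)) τ0
      rw [sum_sub_distrib, ← mul_sum]
      nlinarith
    have k0 : 0 ≤ k - τ := by
      refine le_trans ?_ (key v0 ((hmem v0).1 hv0))
      exact add_nonneg (mul_nonneg (hα _) (r0 _)) (mul_nonneg hβ (sum_nonneg fun u _ => r0 u))
    have hcard : (univ.filter (fun v => 0 < r v - τ * cov μ v)).card ≤ n := by
      have hsub : univ.filter (fun v => 0 < r v - τ * cov μ v) ⊆ H.erase u0 := by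
        intro v hv
        have hv' : 0 < r v - τ * cov μ v := by simpa using hv
        refine mem_erase.2 ⟨?_, (hmem v).2 (rle v hv')⟩
        rintro rfl
        rw [hτ, div_mul_cancel₀ _ pu0.ne'] at hv'
        linarith
      have := card_le_card hsub
      rw [card_erase_of_mem hu0H] at this
      omega
    obtain ⟨x, x0, x1, x2, x3⟩ := ih (fun v => r v - τ * cov μ v) (k - τ) hcard r0
      (fun v hv => hA v (rle v hv)) k0 (fun v hv => key v (rle v hv))
    refine ⟨fun s => x s + τ * μ s, fun s => add_nonneg (x0 s) (mul_nonneg τ0 (m0 s)),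
      fun s hs => by simp [x1 s hs, m1 s hs], fun v => ?_, ?_⟩
    · have h1 := x2 v
      have : cov (fun s => x s + τ * μ s) v = cov x v + τ * cov μ v := by
        simp only [cov, sum_add_distrib, mul_sum]
      rw [this]
      linarith
    · rw [sum_add_distrib, ← mul_sum, m3]
      linarith

theorem cover (G : SimpleGraph V) [DecidableRel G.Adj] {α : V → ℝ} {β k : ℝ} (hα : ∀ v, 0 ≤ α v)
    (hβ : 0 ≤ β) (hk : 0 ≤ k) {A : Finset V} (hloc : Occ G α β A)
    (h : ∀ v ∈ A, α v + β * G.degree v ≤ k) :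
    ∃ x : Finset V → ℝ, (∀ s, 0 ≤ x s) ∧
      (∀ s : Finset V, ¬ G.IsIndepSet (s : Set V) → x s = 0) ∧
      (∀ v ∈ A, 1 ≤ cov x v) ∧ ∑ s, x s ≤ k := by
  have hA : ∀ v, (0 : ℝ) < (if v ∈ A then 1 else 0) → v ∈ A := fun v h => by
    by_contra hv
    simp [hv] at h
  obtain ⟨x, x0, x1, x2, x3⟩ := greedyV G hα hβ hloc _ (fun v => if v ∈ A then 1 else 0)
    k le_rfl (fun v => by split_ifs <;> norm_num) hA hk (fun v hv => by
      have h1 : ∑ u ∈ G.neighborFinset v, (if u ∈ A then (1 : ℝ) else 0) ≤ G.degree v := by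
        refine le_trans (sum_le_sum (g := fun _ => (1 : ℝ)) fun u _ => by
          split_ifs <;> norm_num) ?_
        simp
      have := mul_le_mul_of_nonneg_left h1 hβ
      have := h v (hA v hv)
      simp only [hA v hv, if_true]
      linarith)
  exact ⟨x, x0, x1, fun v hv => by simpa [hv] using x2 v, x3⟩

variable (G : SimpleGraph V) [DecidableRel G.Adj]

/-- The largest size of a clique through `v`. -/
noncomputable def om (v : V) : ℕ := sSup {n : ℕ | ∃ s : Finset V, G.IsNClique n s ∧ v ∈ s}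

omit [DecidableRel G.Adj] in
theorem bdd (v : V) : BddAbove {n : ℕ | ∃ s : Finset V, G.IsNClique n s ∧ v ∈ s} :=
  ⟨Fintype.card V, fun _ ⟨s, hs, _⟩ => hs.card_eq ▸ card_le_univ s⟩

omit [DecidableRel G.Adj] in
theorem le_om {v : V} {s : Finset V} (hs : G.IsClique (s : Set V)) (hv : v ∈ s) :
    s.card ≤ om G v := le_csSup (bdd G v) ⟨s, ⟨hs, rfl⟩, hv⟩

omit [DecidableRel G.Adj] in
theorem exists_om (v : V) : ∃ s : Finset V, G.IsClique (s : Set V) ∧ v ∈ s ∧ s.card = om G v := by
  obtain ⟨s, hs, hv⟩ := Nat.sSup_mem (s := {n : ℕ | ∃ s : Finset V, G.IsNClique n s ∧ v ∈ s})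
    ⟨1, {v}, ⟨by simp, card_singleton v⟩, mem_singleton_self v⟩ (bdd G v)
  exact ⟨s, hs.isClique, hv, hs.card_eq⟩

/-- A uniform distribution on a family of independent sets. -/
theorem occ_of_family {α : V → ℝ} {β : ℝ} {A : Finset V}
    (h : ∀ H ⊆ A, ∃ M ⊆ Ind G H, M.Nonempty ∧ ∀ v ∈ H, (M.card : ℝ) ≤
      α v * (M.filter fun I => v ∈ I).card +
        β * ∑ I ∈ M, ((I.filter fun u => G.Adj v u).card : ℝ)) : Occ G α β A := by
  intro H hH
  obtain ⟨M, hM, hne, hv⟩ := h H hH
  have Z0 : (0 : ℝ) < M.card := by exact_mod_cast hne.card_pos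
  have hc : ∀ u, cov (fun s => if s ∈ M then 1 / (M.card : ℝ) else 0) u =
      ((M.filter fun I => u ∈ I).card : ℝ) / M.card := fun u => by
    rw [cov, ← sum_filter, sum_const, nsmul_eq_mul, mul_one_div]
    congr 3
    ext s
    simp [and_comm]
  refine ⟨fun s => if s ∈ M then 1 / (M.card : ℝ) else 0,
    fun s => by dsimp only; split_ifs <;> positivity,
    fun s hs => if_neg fun h => hs fun a ha b hb _ => ((mem_Ind G).1 (hM h)).2 a ha b hb,
    fun s hs => if_neg fun h => hs ((mem_Ind G).1 (hM h)).1, ?_, fun v hvH => ?_⟩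
  · rw [← sum_filter, sum_const, nsmul_eq_mul, filter_mem_eq_inter, univ_inter,
      mul_one_div_cancel Z0.ne']
  simp only [hc]
  rw [← sum_div, ← mul_div_assoc, ← mul_div_assoc, ← add_div, le_div_iff₀ Z0, one_mul]
  have e : ∑ u ∈ G.neighborFinset v, ((M.filter fun I => u ∈ I).card : ℝ) =
      ∑ I ∈ M, ((I.filter fun u => G.Adj v u).card : ℝ) := by
    simp only [card_filter, Nat.cast_sum]
    rw [sum_comm]
    refine sum_congr rfl fun I _ => ?_
    rw [← Nat.cast_sum, ← Nat.cast_sum, ← card_filter, ← card_filter]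
    congr 2
    ext u
    simp [and_comm]
  rw [e]
  exact hv v hvH

/-- Maximum independent sets give the local form of the fractional Reed bound. -/
theorem occ_reed (A : Finset V) : Occ G (fun v => ((om G v : ℝ) + 1) / 2) (1 / 2) A := by
  refine occ_of_family G fun H _ => ?_
  obtain ⟨I0, hI0, hmax⟩ := exists_max_image (Ind G H) card ⟨∅, by simp [mem_Ind]⟩
  set M := (Ind G H).filter fun I => I.card = I0.card with hM
  refine ⟨M, filter_subset _ _, ⟨I0, mem_filter.2 ⟨hI0, rfl⟩⟩, fun v hv => ?_⟩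
  have hins : ∀ J ∈ Ind G H, ∀ u ∈ H, (∀ w ∈ J, ¬ G.Adj u w) → insert u J ∈ Ind G H := by
    intro J hJ u hu h
    obtain ⟨h1, h2⟩ := (mem_Ind G).1 hJ
    refine (mem_Ind G).2 ⟨insert_subset hu h1, fun a ha b hb => ?_⟩
    rcases mem_insert.1 ha with rfl | ha' <;> rcases mem_insert.1 hb with rfl | hb'
    · exact G.irrefl
    · exact h b hb'
    · exact fun k => h a ha' k.symm
    · exact h2 a ha' b hb'
  have hsubI : ∀ J ∈ Ind G H, ∀ J' ⊆ J, J' ∈ Ind G H := fun J hJ J' h =>
    (mem_Ind G).2 ⟨h.trans ((mem_Ind G).1 hJ).1,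
      fun a ha b hb => ((mem_Ind G).1 hJ).2 a (h ha) b (h hb)⟩
  set B := M.filter fun I => v ∉ I ∧ (I.filter fun u => G.Adj v u).card ≤ 1 with hB
  have hone : ∀ I ∈ M, v ∉ I → 1 ≤ (I.filter fun u => G.Adj v u).card := by
    intro I hI hvI
    obtain ⟨h1, h2⟩ := mem_filter.1 hI
    by_contra h0
    have h3 : I.filter (fun u => G.Adj v u) = ∅ := card_eq_zero.1 (by omega)
    have := hmax _ (hins I h1 v hv fun w hw k => by
      have : w ∈ I.filter fun u => G.Adj v u := mem_filter.2 ⟨hw, k⟩
      rw [h3] at this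
      exact notMem_empty _ this)
    rw [card_insert_of_notMem hvI] at this
    omega
  have hBA : B.card ≤ (om G v - 1) * (M.filter fun I => v ∈ I).card := by
    refine card_le_mul_card_image_of_maps_to
      (f := fun I => insert v (I.filter fun u => ¬ G.Adj v u)) (fun I hI => ?_) _ fun J hJ => ?_
    · obtain ⟨h1, h2, h3⟩ := mem_filter.1 hI
      obtain ⟨h4, h5⟩ := mem_filter.1 h1
      refine mem_filter.2 ⟨mem_filter.2 ⟨hins _ (hsubI I h4 _ (filter_subset _ _)) v hv
        fun w hw => (mem_filter.1 hw).2, ?_⟩, mem_insert_self _ _⟩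
      have := hone I h1 h2
      have := card_filter_add_card_filter_not (s := I) (fun u => G.Adj v u)
      rw [card_insert_of_notMem fun k => h2 (mem_filter.1 k).1]
      omega
    · obtain ⟨h1, h2⟩ := mem_filter.1 hJ
      obtain ⟨h3, h4⟩ := mem_filter.1 h1
      set U := H.filter fun u => G.Adj v u ∧ ∀ w ∈ J.erase v, ¬ G.Adj u w with hU
      have hJ' := hsubI J h3 _ (erase_subset v J)
      have hUJ : ∀ u ∈ U, u ∉ J.erase v := fun u hu k =>
        ((mem_Ind G).1 h3).2 v h2 u (mem_of_mem_erase k) (mem_filter.1 hu).2.1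
      have hcl : G.IsClique ((insert v U : Finset V) : Set V) := by
        intro a ha b hb hab
        rcases mem_insert.1 (mem_coe.1 ha) with rfl | ha' <;>
          rcases mem_insert.1 (mem_coe.1 hb) with rfl | hb'
        · exact absurd rfl hab
        · exact (mem_filter.1 hb').2.1
        · exact (mem_filter.1 ha').2.1.symm
        · by_contra k
          have := hmax _ (hins _ (hins _ hJ' b (mem_filter.1 hb').1 (mem_filter.1 hb').2.2) a
            (mem_filter.1 ha').1 fun w hw => by
              rcases mem_insert.1 hw with rfl | hw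
              · exact k
              · exact (mem_filter.1 ha').2.2 w hw)
          rw [card_insert_of_notMem (by
            rw [mem_insert, not_or]; exact ⟨hab, hUJ a ha'⟩), card_insert_of_notMem (hUJ b hb'),
            card_erase_of_mem h2] at this
          have := card_pos.2 ⟨v, h2⟩
          omega
      have h5 := le_om G hcl (mem_insert_self _ _)
      rw [card_insert_of_notMem fun k => G.irrefl (mem_filter.1 k).2.1] at h5
      refine le_trans (card_le_card (t := U.image fun u => insert u (J.erase v)) fun I hI => ?_)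
        (card_image_le.trans (by omega))
      obtain ⟨h6, h7⟩ := mem_filter.1 hI
      obtain ⟨h8, h9, h10⟩ := mem_filter.1 h6
      obtain ⟨u, hu⟩ := card_eq_one.1 (le_antisymm h10 (hone I h8 h9))
      have hu' : u ∈ I.filter fun u => G.Adj v u := hu ▸ mem_singleton_self u
      have e : J.erase v = I.filter fun u => ¬ G.Adj v u := by
        rw [← h7, erase_insert fun k => h9 (mem_filter.1 k).1]
      obtain ⟨h11, h12⟩ := (mem_Ind G).1 (mem_filter.1 h8).1
      refine mem_image.2 ⟨u, mem_filter.2 ⟨h11 (mem_filter.1 hu').1, (mem_filter.1 hu').2,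
        fun w hw => h12 u (mem_filter.1 hu').1 w (mem_filter.1 (e ▸ hw)).1⟩, ?_⟩
      rw [e, insert_eq, ← hu]
      exact filter_union_filter_not_eq _ _
  have h1 : 1 ≤ om G v := by
    simpa using le_om G (s := {v}) (by simp) (mem_singleton_self v)
  have h2 : 2 * M.card ≤ 2 * (M.filter fun I => v ∈ I).card + B.card +
      ∑ I ∈ M, (I.filter fun u => G.Adj v u).card := by
    rw [hB, card_filter _ M, card_filter _ M, card_eq_sum_ones M, mul_sum, mul_sum,
      ← sum_add_distrib, ← sum_add_distrib]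
    refine sum_le_sum fun I hI => ?_
    have := hone I hI
    by_cases k1 : v ∈ I
    · rw [if_pos k1]
      omega
    · have k2 := this k1
      rw [if_neg k1]
      by_cases k3 : (I.filter fun u => G.Adj v u).card ≤ 1
      · rw [if_pos ⟨k1, k3⟩]
        omega
      · rw [if_neg fun k => k3 k.2]
        omega
  have h3 : (B.card : ℝ) ≤ ((om G v : ℝ) - 1) * (M.filter fun I => v ∈ I).card := by
    have := (Nat.cast_le (α := ℝ)).2 hBA
    rwa [Nat.cast_mul, Nat.cast_sub h1, Nat.cast_one] at this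
  have h4 := (Nat.cast_le (α := ℝ)).2 h2
  push_cast at h4
  linarith

end Pool.Agent.P.MP_8e531e_co.H
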