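import Pool.Agent.P.MP_8e531e_co.H.A

/-! Vertices of large weight span no large clique, and such sets are cheap to cover. -/

set_option autoImplicit false
set_option linter.unusedSectionVars false

namespace Pool.Agent.P.MP_8e531e_co.H

open Finset Pool.Agent.P.MP_8e531e_co.Q

variable {V : Type} [Fintype V] [DecidableEq V] (G : SimpleGraph V) [DecidableRel G.Adj]

/-- Local occupancy of the hard-core model from an inequality inside neighbourhoods. -/
theorem locOcc_of {l α β : ℝ} (hl : 0 < l) (hβ0 : 0 ≤ β) (A : Finset V)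
    (hA : ∀ F ⊆ A, 0 ≤ l * (α - 1) + ∑ K ∈ Ind G F, l ^ K.card * (β * K.card - 1)) :
    LocOcc G α β A := by
  intro H hH
  set Z := ∑ K ∈ Ind G H, l ^ K.card with hZ
  have Z0 : 0 < Z := sum_pos (fun _ _ => by positivity) ⟨∅, by simp [mem_Ind]⟩
  have hc : ∀ u, cov (fun s => if s ∈ Ind G H then l ^ s.card / Z else 0) u =
      (∑ I ∈ (Ind G H).filter (fun I => u ∈ I), l ^ I.card) / Z := fun u => by
    rw [cov, ← sum_filter, sum_div]
    exact sum_congr (by ext s; simp [and_comm]) fun _ _ => rfl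
  refine ⟨fun s => if s ∈ Ind G H then l ^ s.card / Z else 0,
    fun s => by dsimp only; split_ifs <;> positivity,
    fun s hs => if_neg fun h => hs fun a ha b hb _ => ((mem_Ind G).1 h).2 a ha b hb,
    fun s hs => if_neg fun h => hs ((mem_Ind G).1 h).1, ?_, fun v hv => ?_⟩
  · rw [← sum_filter, ← sum_div, div_eq_one_iff_eq Z0.ne']
    exact sum_congr (by ext s; simp) fun _ _ => rfl
  simp only [hc]
  rw [← sum_div, sum_in, ← mul_div_assoc, ← mul_div_assoc, ← add_div, le_div_iff₀ Z0, one_mul]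
  have e1 : ∀ I : Finset V, (G.neighborFinset v).filter (fun u => u ∈ I) =
      I.filter (fun u => G.Adj v u) := fun I => by ext u; simp [and_comm]
  simp only [e1]
  have s1 := sum_filter_add_sum_filter_not (Ind G H) (fun I => v ∈ I) (fun I => l ^ I.card)
  have s2 : ∑ I ∈ (Ind G H).filter (fun I => v ∉ I),
      l ^ I.card * ((I.filter (fun u => G.Adj v u)).card : ℝ) ≤
      ∑ I ∈ Ind G H, l ^ I.card * ((I.filter (fun u => G.Adj v u)).card : ℝ) :=
    sum_le_sum_of_subset_of_nonneg (filter_subset _ _) fun _ _ _ => by positivity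
  have s3 : ∑ I ∈ (Ind G H).filter (fun I => v ∉ I),
      l ^ I.card * (β * (I.filter (fun u => G.Adj v u)).card - 1) =
      β * ∑ I ∈ (Ind G H).filter (fun I => v ∉ I),
        l ^ I.card * ((I.filter (fun u => G.Adj v u)).card : ℝ) -
      ∑ I ∈ (Ind G H).filter (fun I => v ∉ I), l ^ I.card := by
    rw [mul_sum, ← sum_sub_distrib]
    exact sum_congr rfl fun K _ => by ring
  have s4 : 0 ≤ (α - 1) * ∑ I ∈ (Ind G H).filter (fun I => v ∈ I), l ^ I.card +
      ∑ I ∈ (Ind G H).filter (fun I => v ∉ I),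
        l ^ I.card * (β * (I.filter (fun u => G.Adj v u)).card - 1) := by
    rw [fibre, in_eq G l hv, ← mul_assoc, mul_sum, ← sum_add_distrib]
    refine sum_nonneg fun J _ => ?_
    rw [← mul_sum, mul_comm _ (l ^ J.card), ← mul_add, mul_comm (α - 1)]
    exact mul_nonneg (by positivity) (hA _ ((filter_subset _ _).trans hH))
  have s5 := mul_le_mul_of_nonneg_left s2 hβ0
  linarith

/-- A crude Ramsey bound. -/
theorem ramsey (a k : ℕ) : ∀ F : Finset V, (∀ K ∈ Ind G F, K.card ≤ a) →
    (∀ X ⊆ F, G.IsClique (X : Set V) → X.card ≤ k) → F.card + 1 ≤ (a + 1) ^ k := by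
  induction k with
  | zero =>
    intro F _ h
    rcases F.eq_empty_or_nonempty with rfl | ⟨v, hv⟩
    · simp
    · simpa using h {v} (singleton_subset_iff.2 hv) (by simp)
  | succ k ih =>
    intro F h1 h2
    obtain ⟨I, hI, hmax⟩ := exists_max_image (Ind G F) card ⟨∅, by simp [mem_Ind]⟩
    obtain ⟨h3, h4⟩ := (mem_Ind G).1 hI
    have hsub : F ⊆ I.biUnion fun v => insert v (F.filter fun u => G.Adj v u) := by
      intro u hu
      by_contra hn
      have hn' : ∀ v ∈ I, u ≠ v ∧ ¬ G.Adj v u := fun v hv =>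
        ⟨fun e => hn (mem_biUnion.2 ⟨v, hv, e ▸ mem_insert_self _ _⟩),
          fun e => hn (mem_biUnion.2 ⟨v, hv, mem_insert_of_mem (mem_filter.2 ⟨hu, e⟩)⟩)⟩
      have := hmax (insert u I) ((mem_Ind G).2 ⟨insert_subset hu h3, fun x hx y hy => by
        rcases mem_insert.1 hx with rfl | hx' <;> rcases mem_insert.1 hy with rfl | hy'
        · exact G.irrefl
        · exact fun e => (hn' y hy').2 e.symm
        · exact (hn' x hx').2
        · exact h4 x hx' y hy'⟩)
      rw [card_insert_of_notMem fun e => (hn' u e).1 rfl] at this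
      omega
    have h5 : ∀ v ∈ I, (insert v (F.filter fun u => G.Adj v u)).card ≤ (a + 1) ^ k := by
      intro v hv
      refine (card_insert_le _ _).trans (ih _ (fun K hK => h1 K ((mem_Ind G).2
        ⟨((mem_Ind G).1 hK).1.trans (filter_subset _ _), ((mem_Ind G).1 hK).2⟩)) fun X hX hc => ?_)
      have := h2 (insert v X) (insert_subset (h3 hv) (hX.trans (filter_subset _ _))) (by
        rw [coe_insert]
        exact hc.insert fun b hb _ => (mem_filter.1 (hX hb)).2)
      rw [card_insert_of_notMem fun e => G.irrefl (mem_filter.1 (hX e)).2] at this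
      omega
    have h6 := (card_le_card hsub).trans (card_biUnion_le_card_mul _ _ _ h5)
    have h7 := Nat.mul_le_mul_right ((a + 1) ^ k) (h1 I hI)
    have h8 : 0 < (a + 1) ^ k := by positivity
    rw [pow_succ]
    nlinarith

theorem small_le (F : Finset V) (t : ℕ) :
    ((Ind G F).filter fun K => K.card < t).card ≤ t * (F.card + 1) ^ t := by
  have hsub : ((Ind G F).filter fun K => K.card < t) ⊆
      (range t).biUnion fun j => powersetCard j F := fun K hK =>
    mem_biUnion.2 ⟨K.card, mem_range.2 (mem_filter.1 hK).2,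
      mem_powersetCard.2 ⟨((mem_Ind G).1 (mem_filter.1 hK).1).1, rfl⟩⟩
  have := (card_le_card hsub).trans (card_biUnion_le_card_mul _ _ ((F.card + 1) ^ t) fun j hj => by
    rw [card_powersetCard]
    exact (Nat.choose_le_pow _ _).trans ((Nat.pow_le_pow_left (Nat.le_succ _) _).trans
      (Nat.pow_le_pow_right (Nat.succ_pos _) (mem_range.1 hj).le)))
  rwa [card_range] at this

omit G in
theorem poly_exp (t m : ℕ) : ∃ c : ℝ, 0 ≤ c ∧ ∀ a : ℕ, 2 * t * ((a : ℝ) + 1) ^ m ≤ 2 ^ a + c := by
  have h := (tendsto_pow_const_div_const_pow_of_one_lt m (show (1 : ℝ) < 2 by norm_num)).eventually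
    (gt_mem_nhds (show (0 : ℝ) < 1 / (4 * t + 1) by positivity))
  obtain ⟨a0, ha0⟩ := Filter.eventually_atTop.1 h
  refine ⟨2 * t * ((a0 : ℝ) + 1) ^ m, by positivity, fun a => ?_⟩
  rcases le_total a a0 with h1 | h1
  · have : ((a : ℝ) + 1) ^ m ≤ ((a0 : ℝ) + 1) ^ m :=
      pow_le_pow_left₀ (by positivity) (by exact_mod_cast Nat.succ_le_succ h1) _
    have := mul_le_mul_of_nonneg_left this (show (0 : ℝ) ≤ 2 * t by positivity)
    have : (0 : ℝ) ≤ 2 ^ a := by positivity
    linarith
  · have h2 := ha0 (a + 1) (by omega)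
    rw [div_lt_div_iff₀ (by positivity) (by positivity), pow_succ] at h2
    push_cast at h2
    have : (0 : ℝ) ≤ ((a : ℝ) + 1) ^ m := by positivity
    have : (0 : ℝ) ≤ 2 * t * ((a0 : ℝ) + 1) ^ m := by positivity
    nlinarith

omit G in
/-- Sets without a clique of more than `k` vertices have local occupancy with any `β > 0`. -/
theorem occ_free (k : ℕ) {β : ℝ} (hβ : 0 < β) : ∃ α : ℝ, 0 ≤ α ∧ ∀ (V : Type) [Fintype V]
    [DecidableEq V] (G : SimpleGraph V) [DecidableRel G.Adj] (A : Finset V),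
    (∀ X ⊆ A, G.IsClique (X : Set V) → X.card ≤ k) → LocOcc G α β A := by
  obtain ⟨t, ht⟩ := exists_nat_ge (2 / β)
  rw [div_le_iff₀ hβ] at ht
  obtain ⟨c, c0, hc⟩ := poly_exp t (k * t)
  refine ⟨c + 1, by linarith, fun V _ _ G _ A hA => locOcc_of G one_pos hβ.le A fun F hF => ?_⟩
  obtain ⟨I, hI, hmax⟩ := exists_max_image (Ind G F) card ⟨∅, by simp [mem_Ind]⟩
  have h1 := ramsey G I.card k F hmax fun X hX => hA X (hX.trans hF)
  have h2 : 2 ^ I.card ≤ (Ind G F).card := by
    rw [← card_powerset]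
    exact card_le_card fun K hK => (mem_Ind G).2 ⟨(mem_powerset.1 hK).trans ((mem_Ind G).1 hI).1,
      fun a ha b hb => ((mem_Ind G).1 hI).2 a (mem_powerset.1 hK ha) b (mem_powerset.1 hK hb)⟩
  have h3 := (small_le G F t).trans (Nat.mul_le_mul_left t (Nat.pow_le_pow_left h1 t))
  rw [← pow_mul] at h3
  have h4 : ∑ K ∈ Ind G F, (1 - 2 * (if K.card < t then (1 : ℝ) else 0)) ≤
      ∑ K ∈ Ind G F, (1 : ℝ) ^ K.card * (β * K.card - 1) := sum_le_sum fun K _ => by
    rw [one_pow, one_mul]
    split_ifs with h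
    · have : 0 ≤ β * K.card := by positivity
      linarith
    · have : (t : ℝ) ≤ K.card := by exact_mod_cast not_lt.1 h
      nlinarith
  rw [sum_sub_distrib, ← mul_sum, sum_boole, sum_const, nsmul_eq_mul, mul_one] at h4
  have h5 := hc I.card
  have h6 := (Nat.cast_le (α := ℝ)).2 h2
  have h7 := (Nat.cast_le (α := ℝ)).2 h3
  push_cast at h6 h7
  linarith

/-- Delete the edges from `x` to the vertices outside `X`. -/
def cut (G : SimpleGraph V) (X : Finset V) (x : V) : SimpleGraph V where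
  Adj a b := G.Adj a b ∧ (a = x → b ∈ X) ∧ (b = x → a ∈ X)
  symm := ⟨fun _ _ h => ⟨h.1.symm, h.2.2, h.2.1⟩⟩
  loopless := ⟨fun _ h => G.irrefl h.1⟩

variable {G}

theorem clique_sum {g : ℝ}
    (h : ∀ (H : SimpleGraph V) [DecidableRel H.Adj], H ≤ G → GammaLe H g) {X : Finset V}
    (hX : G.IsClique (X : Set V)) {x : V} (hx : x ∈ X) :
    ∑ v ∈ X.erase x, (wt G v - 1 / 2) ≤ g * X.card := by
  classical
  have h1 := h (cut G X x) (fun _ _ k => k.1) X
    (fun a ha b hb hab => ⟨hX ha hb hab, fun _ => hb, fun _ => ha⟩) fun Y hY hXY => by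
      refine Subset.antisymm (fun y hy => ?_) hXY
      by_cases e : y = x
      · exact e ▸ hx
      · exact (hY hy (hXY hx) e).2.2 rfl
  rw [div_le_iff₀ (by exact_mod_cast card_pos.2 ⟨x, hx⟩), ← sum_erase_add _ _ hx] at h1
  have h2 : 0 ≤ wt (cut G X x) x := le_trans (by positivity) (le_wt x)
  have h3 : ∀ v ∈ X.erase x, wt G v - 1 / 2 ≤ wt (cut G X x) v := by
    intro v hv
    obtain ⟨h4, h5⟩ := mem_erase.1 hv
    have h6 : G.degree v ≤ (cut G X x).degree v := by
      rw [← SimpleGraph.card_neighborFinset_eq_degree, ← SimpleGraph.card_neighborFinset_eq_degree]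
      refine card_le_card fun u hu => ?_
      rw [SimpleGraph.mem_neighborFinset] at hu ⊢
      exact ⟨hu, fun e => absurd e h4, fun _ => h5⟩
    obtain ⟨s, s1, s2, s3⟩ := exists_om G v
    have h7 := le_om (cut G X x) (s := s.erase x) (fun a ha b hb hab =>
      ⟨s1 (mem_of_mem_erase ha) (mem_of_mem_erase hb) hab, fun e => absurd e (mem_erase.1 ha).1,
        fun e => absurd e (mem_erase.1 hb).1⟩) (mem_erase.2 ⟨h4, s2⟩)
    have h8 : om G v ≤ om (cut G X x) v + 1 := by
      have := pred_card_le_card_erase (s := s) (a := x)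
      omega
    have h9 := (Nat.cast_le (α := ℝ)).2 h6
    have h10 := (Nat.cast_le (α := ℝ)).2 h8
    push_cast at h10
    change (_ + (om G v : ℝ) + 1) / 2 - 1 / 2 ≤ (_ + (om (cut G X x) v : ℝ) + 1) / 2
    linarith
  linarith [sum_le_sum h3]

omit G in
theorem main (ε : ℝ) (hε : 0 < ε) : ∃ C : ℝ, ∀ (V : Type) [Fintype V] [DecidableEq V]
    [Nonempty V] (G : SimpleGraph V) (g : ℝ),
    (∀ (H : SimpleGraph V) [DecidableRel H.Adj], H ≤ G → GammaLe H g) →
      chiF G ≤ (1 + ε) * g + C := by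
  classical
  obtain ⟨k, hk⟩ := exists_nat_ge (2 / ε)
  rw [div_le_iff₀ hε] at hk
  obtain ⟨α, α0, hα⟩ := occ_free k (show 0 < ε / 8 by positivity)
  refine ⟨α + 1 / 2, fun V _ _ _ G g h => ?_⟩
  obtain ⟨v0⟩ := ‹Nonempty V›
  have g0 : 0 ≤ g := by simpa using clique_sum h (X := {v0}) (by simp) (mem_singleton_self v0)
  have hd : ∀ v, (G.degree v : ℝ) ≤ 4 * g := fun v => by
    rcases (G.neighborFinset v).eq_empty_or_nonempty with e | ⟨u, hu⟩
    · rw [← G.card_neighborFinset_eq_degree, e]
      simpa using g0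
    · rw [G.mem_neighborFinset] at hu
      have h1 := clique_sum h (X := {u, v}) (by simpa using fun _ => hu.symm) (mem_insert_self u _)
      rw [erase_insert (by simpa using hu.ne'), sum_singleton, card_pair hu.ne'] at h1
      push_cast at h1
      linarith [le_wt (G := G) v]
  set b := (1 + ε / 2) * g + 1 / 2 with hb
  obtain ⟨x, x0, x1, x2, x3⟩ := cover G (k := b) (fun v => by positivity) (by norm_num)
    (by positivity) (occ_reed G (univ.filter fun v => ¬ b < wt G v)) fun v hv => by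
      have := not_lt.1 (mem_filter.1 hv).2
      change (_ + (om G v : ℝ) + 1) / 2 ≤ b at this
      linarith
  obtain ⟨y, y0, y1, y2, y3⟩ := cover_set G (D := 4 * g) α0 (by positivity) (by positivity)
    (hα V G (univ.filter fun v => b < wt G v) fun X hX hc => by
      by_contra hlt
      obtain ⟨z, hz⟩ : X.Nonempty := card_pos.1 (by omega)
      have k0 : (0 : ℝ) < k := by
        by_contra e
        nlinarith [mul_nonneg (neg_nonneg.2 (not_lt.1 e)) hε.le]
      have h1 := card_erase_add_one hz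
      have h2 : k ≤ (X.erase z).card := by omega
      have h3 : (k : ℝ) ≤ (X.erase z).card := by exact_mod_cast h2
      have h4 := sum_lt_sum_of_nonempty (s := X.erase z) (f := fun _ => (1 + ε / 2) * g)
        (g := fun v => wt G v - 1 / 2) (card_pos.1 (by exact_mod_cast k0.trans_le h3))
        fun v hv => by linarith [(mem_filter.1 (hX (mem_of_mem_erase hv))).2]
      have h5 := clique_sum h hc hz
      rw [← h1] at h5
      rw [sum_const, nsmul_eq_mul] at h4
      push_cast at h5
      have h6 : 2 ≤ ((X.erase z).card : ℝ) * ε := hk.trans (mul_le_mul_of_nonneg_right h3 hε.le)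
      nlinarith [mul_le_mul_of_nonneg_right h6 g0]) fun v _ => hd v
  refine le_trans (csInf_le ⟨0, ?_⟩ ⟨fun t => x t + y t, ⟨fun t => add_nonneg (x0 t) (y0 t),
    fun t ht => by simp [x1 t ht, y1 t ht], fun v => ?_⟩, rfl⟩) ?_
  · rintro _ ⟨z, hz, rfl⟩
    exact sum_nonneg fun s _ => hz.1 s
  · rw [sum_add_distrib]
    have b1 := cov_nonneg x0 v
    have b2 := cov_nonneg y0 v
    change 1 ≤ cov x v + cov y v
    by_cases hv : b < wt G v
    · linarith [y2 v (by simpa using hv)]
    · linarith [x2 v (by simpa using hv)]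
  · rw [sum_add_distrib]
    linarith

end Pool.Agent.P.MP_8e531e_co.H
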